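import Pool.Agent.H.MP_0f8a1e_an.J

set_option linter.unusedSectionVars false
set_option linter.unusedVariables false
set_option linter.dupNamespace false
set_option linter.unusedSimpArgs false

namespace Pool.Agent.H.MP_3eb465_an

open Filter Topology Set Metric Pool.Agent.H.MP_0f8a1e_an
open scoped RealInnerProductSpace

variable {n : ℕ}

def hd (y : Eu (Fin (n + 1))) : Eu (Fin n) := WithLp.toLp 2 fun i => y (Fin.castSucc i)

lemma hd_le (y : Eu (Fin (n + 1))) : ‖hd y‖ ≤ ‖y‖ := by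
  rw [EuclideanSpace.norm_eq, EuclideanSpace.norm_eq, Fin.sum_univ_castSucc]
  exact Real.sqrt_le_sqrt (le_add_of_nonneg_right (sq_nonneg _))

noncomputable def emb (y : Eu (Fin n)) (t : ℝ) : Eu (Fin (n + 1)) :=
  ∑ i, y i • eb (Fin.castSucc i) + t • eb (Fin.last n)

lemma emb_hd (x : Eu (Fin (n + 1))) : emb (hd x) (x (Fin.last n)) = x := by
  have e : ∑ j, x j • eb j = x := by simpa [eb] using (EuclideanSpace.basisFun _ ℝ).sum_repr x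
  rwa [Fin.sum_univ_castSucc] at e

def Ch (F : Eu (Fin (n + 1)) → ℝ) (r M : ℝ) : Prop :=
  ∃ (R : Eu (Fin (n + 1)) ≃ₗᵢ[ℝ] Eu (Fin (n + 1))) (φ : Eu (Fin n) → ℝ),
    (∀ y ∈ ball (0 : Eu (Fin n)) r, ContDiffAt ℝ 2 φ y ∧ |φ y| ≤ M ∧ ‖fderiv ℝ φ y‖ ≤ M ∧
      ‖fderiv ℝ (fderiv ℝ φ) y‖ ≤ M) ∧ (∀ y ∈ ball (0 : Eu (Fin n)) r, ∀ z ∈ ball (0 : Eu (Fin n)) r,
      ‖fderiv ℝ (fderiv ℝ φ) y - fderiv ℝ (fderiv ℝ φ) z‖ ≤ M * ‖y - z‖) ∧
    ∀ x ∈ ball (0 : Eu (Fin (n + 1))) r, (0 < F x ↔ φ (hd (R x)) < R x (Fin.last n))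

lemma Ch.mono {F : Eu (Fin (n + 1)) → ℝ} {r M r' M' : ℝ} (h : Ch F r M) (h1 : r' ≤ r)
    (h2 : M ≤ M') : Ch F r' M' := by
  obtain ⟨R, φ, a, b, c⟩ := h
  refine ⟨R, φ, fun y hy => ?_, fun y hy z hz => (b y (ball_subset_ball h1 hy) z
    (ball_subset_ball h1 hz)).trans (by gcongr), fun x hx => c x (ball_subset_ball h1 hx)⟩
  obtain ⟨a1, a2, a3, a4⟩ := a y (ball_subset_ball h1 hy)
  exact ⟨a1, a2.trans h2, a3.trans h2, a4.trans h2⟩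

lemma ev_bd {X Y : Type} [TopologicalSpace X] [NormedAddCommGroup Y] {g : X → Y} {x : X}
    (h : ContinuousAt g x) : ∃ M ≥ 0, ∀ᶠ y in 𝓝 x, ‖g y‖ ≤ M :=
  ⟨‖g x‖ + 1, by positivity, (h.norm.eventually (gt_mem_nhds (lt_add_one _))).mono fun y hy => hy.le⟩

lemma chart {P : Type} [NormedAddCommGroup P] [NormedSpace ℝ P] [CompleteSpace P]
    {Φ : P → Eu (Fin (n + 1)) → ℝ} (hΦ : ContDiff ℝ 3 ↿Φ) {k0 : P} (h0 : Φ k0 0 = 0)
    {v : Eu (Fin (n + 1))} (hv : ‖v‖ = 1) {c : ℝ} (c0 : 0 < c)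
    (hc : HasDerivAt (fun τ : ℝ => Φ k0 (τ • v)) c 0) :
    ∃ r > 0, ∃ M, ∀ᶠ k in 𝓝 k0, Ch (Φ k) r M := by
  obtain ⟨R, hR⟩ : ∃ R : Eu (Fin (n + 1)) ≃ₗᵢ[ℝ] Eu (Fin (n + 1)), R.symm (eb (Fin.last n)) = v :=
    ⟨_, (LinearIsometryEquiv.symm_apply_eq _).2 (Submodule.reflection_sub
      (hv.trans (eb_n _).symm)).symm⟩
  obtain ⟨f, fd⟩ : ∃ f : (P × Eu (Fin n)) × ℝ → ℝ, f = fun p => Φ p.1.1 (R.symm (emb p.1.2 p.2)) :=
    ⟨_, rfl⟩
  have f3 : ContDiff ℝ 3 f := fd ▸ hΦ.comp (contDiff_fst.fst.prodMk (R.symm.contDiff.comp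
    (by unfold emb; fun_prop)))
  have dr : ∀ (q : P × Eu (Fin n)) t, HasDerivAt (fun t => f (q, t)) (fderiv ℝ f (q, t) (0, 1)) t :=
    fun q t => (f3.differentiable (by simp) _).hasFDerivAt.comp_hasDerivAt t
      ((hasDerivAt_const t q).prodMk (hasDerivAt_id t))
  have e0 : fderiv ℝ f ((k0, 0), 0) (0, 1) = c := (dr _ 0).unique (by simpa [fd, emb, hR] using hc)
  have iv : (fderiv ℝ f ((k0, 0), 0) ∘L .inr ℝ (P × Eu (Fin n)) ℝ).IsInvertible :=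
    ⟨ContinuousLinearEquiv.unitsEquivAut ℝ (Units.mk0 c c0.ne'), by ext; simp [e0]⟩
  have fa := f3.contDiffAt (x := ((k0, 0), 0))
  obtain ⟨ψ, ψ0, ψ1, ψ2⟩ : ∃ ψ : P × Eu (Fin n) → ℝ, ψ (k0, 0) = 0 ∧
      (∀ᶠ q in 𝓝 (k0, 0), f (q, ψ q) = 0) ∧ ContDiffAt ℝ 3 ψ (k0, 0) :=
    ⟨_, fa.implicitFunction_apply_self (by simp) iv, by
      simpa [fd, emb, h0] using fa.eventually_apply_implicitFunction (by simp) iv,
      fa.contDiffAt_implicitFunction (by simp) iv⟩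
  obtain ⟨δ, δ0, hδ⟩ := Metric.eventually_nhds_iff.1 (((f3.continuous_fderiv (by simp)).clm_apply
    (continuous_const (y := ((0 : P × Eu (Fin n)), (1 : ℝ))))).continuousAt.eventually
      (lt_mem_nhds (e0 ▸ c0)))
  have s : ∀ {Y : Type} [NormedAddCommGroup Y] [NormedSpace ℝ Y] {g : P × Eu (Fin n) → Y}
      {m : ℕ}, ContDiffAt ℝ (m + 1) g (k0, 0) →
      ContDiffAt ℝ m (fun q : P × Eu (Fin n) => fderiv ℝ (fun y => g (q.1, y)) q.2) (k0, 0) :=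
    fun {Y} _ _ g m hg => ContDiffAt.fderiv (f := fun (q : P × Eu (Fin n)) y => g (q.1, y))
      (hg.comp (((k0, 0), 0) : (P × Eu (Fin n)) × Eu (Fin n))
        (contDiffAt_fst.fst.prodMk contDiffAt_snd)) contDiffAt_snd le_rfl
  have D1 := s (m := 2) ψ2
  have D2 := s (m := 1) D1
  have D3 := s (m := 0) D2
  obtain ⟨M0, p0, b0⟩ := ev_bd ψ2.continuousAt
  obtain ⟨M1, p1, b1⟩ := ev_bd D1.continuousAt
  obtain ⟨M2, p2, b2⟩ := ev_bd D2.continuousAt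
  obtain ⟨M3, p3, b3⟩ := ev_bd D3.continuousAt
  obtain ⟨ε, ε0, hε⟩ := Metric.eventually_nhds_iff.1 (ψ1.and ((ψ2.eventually (by simp)).and
    (b0.and (b1.and (b2.and (b3.and (ψ2.continuousAt.abs.eventually (gt_mem_nhds
      (show |ψ (k0, 0)| < δ by simpa [ψ0] using δ0)))))))))
  refine ⟨min δ ε, by positivity, M0 + M1 + M2 + M3, mem_of_superset (ball_mem_nhds k0
    (show 0 < min δ ε by positivity)) fun k hk => ?_⟩
  have H := fun y (hy : y ∈ ball (0 : Eu (Fin n)) (min δ ε)) => hε (y := (k, y))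
    (max_lt (hk.trans_le (min_le_right _ _)) (hy.trans_le (min_le_right _ _)))
  have c3 : ∀ y ∈ ball (0 : Eu (Fin n)) (min δ ε), ContDiffAt ℝ 3 (fun y => ψ (k, y)) y :=
    fun y hy => (H y hy).2.1.comp y (contDiffAt_const.prodMk contDiffAt_id)
  refine ⟨R, fun y => ψ (k, y), fun y hy => ⟨(c3 y hy).of_le (by norm_num), ?_⟩, fun y hy z hz =>
    (convex_ball _ _).norm_image_sub_le_of_norm_fderiv_le (fun t ht => (((c3 t ht).fderiv_right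
      (m := 2) le_rfl).fderiv_right (m := 1) le_rfl).differentiableAt one_ne_zero)
      (fun t ht => (H t ht).2.2.2.2.2.1.trans (by linarith)) hz hy, fun x hx => ?_⟩
  · obtain ⟨-, -, a0, a1, a2, -⟩ := H y hy
    exact ⟨le_trans a0 (by linarith), a1.trans (by linarith), a2.trans (by linarith)⟩
  have x1 : ‖R x‖ < min δ ε := by simpa using hx
  have x2 : hd (R x) ∈ ball (0 : Eu (Fin n)) (min δ ε) :=
    mem_ball_zero_iff.2 ((hd_le _).trans_lt x1)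
  have m : StrictMonoOn (fun t => f ((k, hd (R x)), t)) (Ioo (-δ) δ) :=
    strictMonoOn_of_deriv_pos (convex_Ioo _ _) (fun t _ => (dr _ t).continuousAt.continuousWithinAt)
      fun t ht => (dr _ t).deriv ▸ hδ (max_lt (max_lt (hk.trans_le (min_le_left _ _))
        (x2.trans_le (min_le_left _ _))) (by simpa using abs_lt.2 (mem_Ioo.1 (interior_subset ht))))
  rw [← m.lt_iff_lt (abs_lt.1 (H _ x2).2.2.2.2.2.2) (abs_lt.1 ((co_le _ _).trans_lt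
    (x1.trans_le (min_le_left _ _)))), (H _ x2).1]
  simp [fd, emb_hd]

theorem charts {P : Type} [NormedAddCommGroup P] [NormedSpace ℝ P] [CompleteSpace P] {K : Set P}
    (hK : IsCompact K) {Φ : P → Eu (Fin (n + 1)) → ℝ} (hΦ : ContDiff ℝ 3 ↿Φ)
    (h0 : ∀ k ∈ K, Φ k 0 = 0) (h1 : ∀ k ∈ K, ∃ i, ∃ c ≠ 0,
      HasDerivAt (fun τ : ℝ => Φ k (τ • eb i)) c 0) : ∃ r > 0, ∃ M, ∀ k ∈ K, Ch (Φ k) r M := by
  refine hK.induction_on (p := fun s => ∃ r > 0, ∃ M, ∀ k ∈ s, Ch (Φ k) r M) ⟨1, one_pos, 0, by simp⟩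
    (fun s t hst ⟨r, r0, M, h⟩ => ⟨r, r0, M, fun k hk => h k (hst hk)⟩)
    (fun s t ⟨r, r0, M, h⟩ ⟨r', r0', M', h'⟩ => ⟨min r r', by positivity, max M M', fun k hk =>
      hk.elim (fun hk => (h k hk).mono (min_le_left _ _) (le_max_left _ _))
        fun hk => (h' k hk).mono (min_le_right _ _) (le_max_right _ _)⟩) fun k hk => ?_
  obtain ⟨i, c, c0, hc⟩ := h1 k hk
  suffices ∃ r > 0, ∃ M, ∀ᶠ k in 𝓝 k, Ch (Φ k) r M by
    obtain ⟨r, r0, M, h⟩ := this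
    exact ⟨_, mem_nhdsWithin_of_mem_nhds h, r, r0, M, fun k hk => hk⟩
  rcases c0.lt_or_gt with c1 | c1
  · refine chart hΦ (h0 k hk) (v := -eb i) (by rw [norm_neg, eb_n]) (neg_pos.2 c1) ?_
    have : HasDerivAt (fun τ : ℝ => Φ k (τ • eb i)) c (-0) := by rwa [neg_zero]
    simpa [Function.comp_def] using this.scomp (0 : ℝ) (hasDerivAt_neg 0)
  · exact chart hΦ (h0 k hk) (eb_n i) c1 hc

end Pool.Agent.H.MP_3eb465_an
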