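import Pool.Agent.H.MP_3eb465_an.A

set_option linter.unusedSectionVars false
set_option linter.unusedVariables false
set_option linter.dupNamespace false
set_option linter.unusedSimpArgs false

namespace Pool.Agent.H.MP_3eb465_an

open Filter Topology Set Metric Pool.Agent.H.MP_0f8a1e_an
open scoped RealInnerProductSpace ContDiff Manifold

variable {ι : Type} [Fintype ι] [DecidableEq ι] [Nonempty ι]
variable {Ω : Set (Eu ι)} {f : ℝ → ℝ} {L r0 : ℝ}

lemma pen2 (hf : Rx f L) (h1 : ContDiff ℝ 1 f) {Λ a l R θ : ℝ} {β γ : Eu ι → ℝ} {y0 : Eu ι}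
    (Λ1 : 1 ≤ Λ) (hΛ : ∀ s ∈ Icc (0 : ℝ) 1, 3 ≤ Λ + deriv f s) (b1 : ContDiff ℝ ∞ β)
    (b2 : HasCompactSupport β) (g1 : ContDiff ℝ ∞ γ) (g2 : HasCompactSupport γ)
    (b3 : ∀ x, 0 ≤ β x ∧ 0 ≤ γ x ∧ β x + γ x ≤ 1) (θ0 : 0 ≤ θ) (θ1 : θ ≤ 1)
    (b4 : ∀ x ∈ closedBall y0 R, β x = 1) (R0 : 0 < R)
    (a0 : 0 < a) (a1 : a ≤ 1) (hl : ∀ s ∈ Icc 0 a, l * s ≤ f s) (hR : ∀ x : Eu ι, ∃ L,
      Lap (fun z => (1 - ‖z - y0‖ ^ 2 / R ^ 2) ^ 2) x L ∧ -L < l * (1 - ‖x - y0‖ ^ 2 / R ^ 2) ^ 2) :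
    ∃ u : Eu ι → ℝ, (∀ x, ContDiffAt ℝ 2 u x ∧ lap u x = Λ * u x - (β x * (Λ * u x + f (u x)) +
      γ x * ((Λ - 1) * u x + θ))) ∧ (∀ x, u x ∈ Icc (0 : ℝ) 1) ∧ a ≤ u y0 := by
  have Λ0 : 0 < Λ := by linarith
  have Λ2 : 0 ≤ Λ - 1 := by linarith
  have c1 : ContDiff ℝ 1 fun s => Λ * s + f s := (contDiff_const.mul contDiff_id).add h1
  obtain ⟨G, r, G0, G1, G2, G3, G4, G5, G6⟩ := approx c1 fun s hs => by
    rw [(((hasDerivAt_id' s).const_mul Λ).fun_add (h1.differentiable one_ne_zero s).hasDerivAt).deriv]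
    linarith [hΛ s hs]
  choose st s1 s2 s3 using fun (k : ℕ) (w : {w : Eu ι → ℝ // ContDiff ℝ ∞ w}) =>
    resolv Λ0 (g := fun x => β x * G k (w.1 x) + γ x * ((Λ - 1) * w.1 x + θ))
      ((b1.mul ((G0 k).comp w.2)).add (g1.mul ((contDiff_const.mul w.2).add contDiff_const)))
      (b2.mul_right.add g2.mul_right)
  obtain ⟨u, u0, u1, u2, u3⟩ : ∃ u : ℕ → Eu ι → ℝ, u 0 = (fun _ => 1) ∧ (∀ k, ContDiff ℝ ∞ (u k)) ∧
      (∀ k, ∃ B, ∀ x, |u (k + 1) x| ≤ B) ∧ ∀ k x, lap (u (k + 1)) x =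
        Λ * u (k + 1) x - (β x * G k (u k x) + γ x * ((Λ - 1) * u k x + θ)) :=
    ⟨fun k => (Nat.rec ⟨fun _ => 1, contDiff_const⟩ (fun k w => ⟨st k w, s1 k w⟩) k :
      {w : Eu ι → ℝ // ContDiff ℝ ∞ w}).1, rfl, fun k => Subtype.prop _, fun k => s2 k _,
        fun k => s3 k _⟩
  have u4 : ∀ k x, ContDiffAt ℝ 2 (u k) x := fun k x => ((u1 k).of_le (by norm_cast)).contDiffAt
  have u5 : ∀ k x, Lap (u (k + 1)) x _ := fun k x => u3 k x ▸ Lap.of (u4 _ x)
  have o : (1 : ℝ) ∈ Icc (0 : ℝ) 1 := ⟨zero_le_one, le_rfl⟩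
  have G7 : ∀ k x, ∀ s ∈ Icc (0 : ℝ) 1, β x * G k s + γ x * ((Λ - 1) * s + θ) ∈ Icc 0 Λ :=
    fun k x s hs => by
    have e1 : 0 ≤ G k s := le_trans (add_nonneg (mul_nonneg Λ0.le hs.1) (hf.nn s hs)) (G4 k s hs).1
    have e2 := G3 k hs o hs.2
    obtain ⟨e3, e4, e5⟩ := b3 x
    have e6 := hs.1
    rw [G2, hf.f1] at e2
    have e7 := mul_le_mul_of_nonneg_left (add_le_add (mul_le_of_le_one_right Λ2 hs.2) θ1) e4
    exact ⟨by positivity, by
      linarith [mul_le_mul_of_nonneg_left e2 e3, mul_le_mul_of_nonneg_left e5 Λ0.le]⟩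
  have I0 : ∀ k x, u k x ∈ Icc (0 : ℝ) 1 := fun k => by
    induction k with
    | zero => simp [u0]
    | succ k ih =>
      obtain ⟨B, hB⟩ := u2 k
      exact fun x => ⟨cmp Λ0 (u1 _).continuous (fun x => (abs_le.1 (hB x)).1) (fun x =>
        ⟨_, sub_le_self _ (G7 k x _ (ih x)).1, u5 k x⟩) x, sub_nonneg.1 (cmp (B := 1 - B)
          (W := fun x => 1 - u (k + 1) x) Λ0 (continuous_const.sub (u1 _).continuous) (fun x => by
            linarith [abs_le.1 (hB x)]) (fun x => ⟨_, by linarith [(G7 k x _ (ih x)).2],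
              (Lap.const 1 x).sub (u5 k x)⟩) x)⟩
  have I1 : ∀ k x, u (k + 1) x ≤ u k x := fun k => by
    induction k with
    | zero => exact fun x => by simpa [u0] using (I0 1 x).2
    | succ k ih =>
      exact fun x => sub_nonneg.1 (cmp (B := -1) (W := fun x => u (k + 1) x - u (k + 2) x) Λ0
        ((u1 _).continuous.sub (u1 _).continuous) (fun x => by
          linarith [(I0 (k + 1) x).1, (I0 (k + 2) x).2]) (fun x => ⟨_, by
            linarith [mul_le_mul_of_nonneg_left ((G4 k _ (I0 (k + 1) x)).2.trans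
              (G3 k (I0 _ x) (I0 _ x) (ih x))) (b3 x).1, mul_le_mul_of_nonneg_left (ih x)
              (mul_nonneg (b3 x).2.1 Λ2)], (u5 k x).sub (u5 (k + 1) x)⟩) x)
  have bb : ∀ x ∈ closedBall y0 R, a * (1 - ‖x - y0‖ ^ 2 / R ^ 2) ^ 2 ∈ Icc 0 a := fun x hx =>
    ⟨by positivity, mul_le_of_le_one_right a0.le (pow_le_one₀ (sub_nonneg.2 (div_le_one_of_le₀
      (pow_le_pow_left₀ (norm_nonneg _) (mem_closedBall_iff_norm.1 hx) 2) (sq_nonneg _)))
        (sub_le_self _ (by positivity)))⟩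
  have I2 : ∀ k, ∀ x ∈ closedBall y0 R, 0 ≤ u k x - a * (1 - ‖x - y0‖ ^ 2 / R ^ 2) ^ 2 := fun k => by
    induction k with
    | zero => exact fun x hx => by rw [u0]; linarith [(bb x hx).2]
    | succ k ih =>
      refine mp0 (isCompact_closedBall y0 R) ((u1 _).continuous.sub (by fun_prop)).continuousOn
        fun x hx h0 => ?_
      obtain ⟨L', l1, l2⟩ := hR x
      have x1 : x ∈ ball y0 R := mem_ball_iff_norm.2 (lt_of_le_of_ne (mem_closedBall_iff_norm.1 hx)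
        fun e => by rw [e, div_self (by positivity)] at h0; linarith [(I0 (k + 1) x).1])
      have m : a * (1 - ‖x - y0‖ ^ 2 / R ^ 2) ^ 2 ∈ Icc (0 : ℝ) 1 := ⟨(bb x hx).1, (bb x hx).2.trans a1⟩
      refine ⟨mem_of_superset (isOpen_ball.mem_nhds x1) ball_subset_closedBall, _, ?_,
        (u5 k x).sub (l1.cmul a)⟩
      rw [b4 x hx]
      linarith [(G4 k _ m).1, G3 k m (I0 k x) (sub_nonneg.1 (ih x hx)), hl _ (bb x hx),
        mul_lt_mul_of_pos_left l2 a0, mul_lt_mul_of_pos_left h0 Λ0, mul_nonneg (b3 x).2.1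
          (add_nonneg (mul_nonneg Λ2 (I0 k x).1) θ0)]
  obtain ⟨w, hw⟩ := L0 (l := atTop) (U := univ) (w := u) (fun x _ => ⟨1, one_pos, Λ,
    (eventually_ge_atTop 1).mono fun n hn y _ => ⟨u4 n y, abs_le.2 ⟨by linarith [(I0 n y).1],
      (I0 n y).2⟩, by
      obtain ⟨k, rfl⟩ := Nat.exists_eq_add_of_le' hn
      have := G7 k y _ (I0 k y)
      rw [u3, abs_le]
      constructor <;> linarith [this.1, this.2, mul_nonneg Λ0.le (I0 (k + 1) y).1,
        mul_le_of_le_one_right Λ0.le (I0 (k + 1) y).2]⟩⟩) fun x _ =>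
    ⟨_, tendsto_atTop_ciInf (antitone_nat_of_succ_le fun k => I1 k x) ⟨0, by
      rintro _ ⟨k, rfl⟩; exact (I0 k x).1⟩⟩
  have wc := hw.continuousOn (Frequently.of_forall fun n => (u1 n).continuous.continuousOn)
  have t1 := tlu_comp hw I0 G5 c1.continuous
  have t2 := tlu_comp hw I0 G6 (c1.continuous_deriv le_rfl)
  have c2 := c1.continuous.comp_continuousOn wc
  have c3 := (c1.continuous_deriv le_rfl).comp_continuousOn wc
  have t4 := ((tlu_const (fun _ => Λ - 1) _ _).mul₀ hw continuousOn_const wc).add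
    (tlu_const (fun _ => θ) _ _)
  have c4 := ((continuousOn_const (c := Λ - 1)).mul wc).add (continuousOn_const (c := θ))
  have t3 := ((tlu_const (fun _ => Λ) _ _).mul₀ (tlu_sh hw) continuousOn_const wc).sub
    (((tlu_const β _ _).mul₀ t1 b1.continuous.continuousOn c2).add
      ((tlu_const γ _ _).mul₀ t4 g1.continuous.continuousOn c4))
  obtain ⟨D, hD⟩ := L1 isOpen_univ (.of_forall fun n y _ => ⟨u4 (n + 1) y, u3 n y⟩) (tlu_sh hw) t3
  have Dc := hD.continuousOn (Frequently.of_forall fun n =>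
    ((u1 (n + 1)).continuous_fderiv (by simp)).continuousOn)
  have fd : ∀ k y, HasFDerivAt (u k) (fderiv ℝ (u k) y) y := fun k y =>
    ((u4 k y).differentiableAt two_ne_zero).hasFDerivAt
  have := L2 isOpen_univ (.of_forall fun n y _ => ⟨u4 (n + 2) y, u3 (n + 1) y⟩) (tlu_sh (tlu_sh hw))
    (tlu_sh t3) (fun n y _ => ((fd (n + 2) y).const_mul Λ).sub
      (((b1.differentiable (by simp) y).hasFDerivAt.mul ((G1 (n + 1) _).comp_hasFDerivAt y
        (fd (n + 1) y))).add ((g1.differentiable (by simp) y).hasFDerivAt.mul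
          (((fd (n + 1) y).const_mul (Λ - 1)).add_const θ))))
      (((tlu_const (fun _ => Λ) _ _).smul₀ (tlu_sh hD) continuousOn_const Dc).sub
      ((((tlu_const β _ _).smul₀ ((tlu_sh t2).smul₀ hD c3 Dc) b1.continuous.continuousOn
        (c3.smul Dc)).add ((tlu_sh t1).smul₀ (tlu_const (fderiv ℝ β) _ _) c2
          (b1.continuous_fderiv (by simp)).continuousOn)).add
      (((tlu_const γ _ _).smul₀ ((tlu_const (fun _ => Λ - 1) _ _).smul₀ hD continuousOn_const Dc)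
        g1.continuous.continuousOn (continuousOn_const.smul Dc)).add ((tlu_sh t4).smul₀
          (tlu_const (fderiv ℝ γ) _ _) c4 (g1.continuous_fderiv (by simp)).continuousOn))))
  refine ⟨w, fun x => this x (mem_univ x), fun x => isClosed_Icc.mem_of_tendsto
    (hw.tendsto_at (mem_univ x)) (.of_forall fun n => I0 n x), ge_of_tendsto'
      (hw.tendsto_at (mem_univ y0)) fun n => ?_⟩
  simpa using I2 n y0 (mem_closedBall_self R0.le)

lemma bdy2 (L0 : 0 ≤ L) (hg : Gm Ω r0) {u : Eu ι → ℝ} {Λ τ : ℝ} (Λ0 : 0 < Λ) (τ0 : 0 < τ)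
    (τ1 : τ ≤ r0 / 4) (hu : ∀ x, ContDiffAt ℝ 2 u x ∧ -lap u x ≤ L)
    (hI : ∀ x, u x ∈ Icc (0 : ℝ) 1) (b4 : ∀ x ∉ Ω, lap u x = Λ * u x) {x : Eu ι} (hx : x ∈ Ω)
    (h : dl Ω x ≤ r0 / 2) : u x ≤ 2 * dd ι / τ ^ 2 / Λ + Cd ι L * 2 * (dl Ω x + τ) / r0 := by
  have d1 := dd1 (ι := ι)
  have r0p := hg.r0
  have uc : Continuous u := continuous_iff_continuousAt.2 fun y => (hu y).1.continuousAt
  have lp : ∀ y, Lap u y _ := fun y => Lap.of (hu y).1
  obtain ⟨η, ηd⟩ : ∃ η, η = 2 * dd ι / τ ^ 2 / Λ := ⟨_, rfl⟩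
  have η0 : 0 ≤ η := by rw [ηd]; positivity
  have η1 : Λ * η = 1 / τ ^ 2 * (2 * dd ι) := by rw [ηd]; field_simp
  have ext : ∀ y, ball y τ ⊆ Ωᶜ → u y ≤ η := fun y hy => by
    have := mp0 (isCompact_closedBall y τ) (W := fun z => η + 1 / τ ^ 2 * ‖z - y‖ ^ 2 - u z)
      (Continuous.continuousOn (by fun_prop)) (fun z hz h0 => by
        have z1 : z ∈ ball y τ := mem_ball_iff_norm.2 (lt_of_le_of_ne (mem_closedBall_iff_norm.1 hz)
          fun e => by rw [e, one_div_mul_cancel (by positivity)] at h0; linarith [(hI z).2])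
        refine ⟨mem_of_superset (isOpen_ball.mem_nhds z1) ball_subset_closedBall, _, ?_,
          ((Lap.const η z).add ((Lap.nsq y z).cmul _)).sub (lp z)⟩
        rw [b4 z (hy z1)]
        linarith [mul_le_mul_of_nonneg_left (show η ≤ u z by
          linarith [show 0 ≤ 1 / τ ^ 2 * ‖z - y‖ ^ 2 by positivity]) Λ0.le]) y
      (mem_closedBall_self τ0.le)
    simpa using this
  obtain ⟨z, n, k1, k2, -, k4⟩ := hg.near (subset_closure hx)
  have δ0 := dl_nn Ω x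
  have e : ‖x - (z - r0 • n)‖ = dl Ω x + r0 := by
    conv_lhs => rw [k2]
    rw [← dist_eq_norm, sub_eq_add_neg, ← neg_smul, d_line _ _ k1, abs_of_nonneg
      (by linarith)]; ring
  have := bd (S := {y | r0 - τ ≤ ‖y - (z - r0 • n)‖}) (c := z - r0 • n) (ρ := r0 - τ) (η := η)
    (M := 1) (N := L) (isClosed_le continuous_const (by fun_prop)) uc.continuousOn (by linarith)
    (by linarith [hg.r1]) zero_le_one L0 (fun y hy => hy) (fun y _ => by linarith [(hI y).2])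
    (fun y hy h0 => ⟨mem_of_superset ((isOpen_lt (f := fun _ => r0 - τ)
      (g := fun y => ‖y - (z - r0 • n)‖) continuous_const (by fun_prop)).mem_nhds (lt_of_le_of_ne
        hy.1 fun e : r0 - τ = ‖y - (z - r0 • n)‖ => absurd (ext y ((ball_subset_ball' (by rw [dist_eq_norm, ← e]; linarith)).trans
          k4)) (not_le.2 h0))) fun y (hy : r0 - τ < ‖y - (z - r0 • n)‖) => hy.le, _, lp y, by
      linarith [(hu y).2]⟩) x
    ⟨by rw [mem_ofPred_eq, e]; linarith, mem_closedBall_iff_norm.2 (by rw [e]; linarith)⟩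
  rw [e, ηd] at this
  refine this.trans (add_le_add_right ?_ _)
  have k6 : ((dl Ω x + r0) ^ 2 - (r0 - τ) ^ 2) / (r0 - τ) ^ 2 ≤ 6 * (dl Ω x + τ) / r0 := by
    rw [div_le_div_iff₀ (by nlinarith) r0p]
    have : 0 ≤ 6 * (r0 - τ) ^ 2 - (dl Ω x + 2 * r0 - τ) * r0 := by nlinarith
    linarith [mul_nonneg (add_nonneg δ0 τ0.le) this]
  calc _ ≤ (2 + L * 4 ^ (Fintype.card ι + 1)) * 1 * (dd ι * (6 * (dl Ω x + τ) / r0)) := by gcongr
    _ = _ := by unfold Cd; ring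

structure Sx (Ω : Set (Eu ι)) (f : ℝ → ℝ) (χ : Eu ι → ℝ) (θ C : ℝ) (w : Eu ι → ℝ) : Prop where
  c : Continuous w
  z : ∀ x ∉ Ω, w x = 0
  I : ∀ x, w x ∈ Icc (0 : ℝ) 1
  c2 : ∀ x ∈ Ω, ContDiffAt ℝ 2 w x
  eq : ∀ x ∈ Ω, lap w x = -(χ x * f (w x) + (1 - χ x) * (θ - w x))
  bd : ∀ x ∈ Ω, w x ≤ C * dl Ω x

variable {χ : Eu ι → ℝ} {θ C : ℝ}

lemma src (hf : Rx f L) {a s : ℝ} (ha : a ∈ Icc (0 : ℝ) 1) (hθ : θ ∈ Icc (0 : ℝ) 1)
    (hs : s ∈ Icc (0 : ℝ) 1) : |a * f s + (1 - a) * (θ - s)| ≤ L := by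
  have h1 := (hf.le hs).trans (mul_le_of_le_one_right (zero_le_one.trans hf.L1) hs.2)
  have h2 := sub_nonneg.2 ha.2
  rw [abs_le]
  constructor <;> linarith [mul_nonneg ha.1 (hf.nn s hs), mul_le_mul_of_nonneg_left h1 ha.1,
    mul_le_mul_of_nonneg_left (show θ - s ≤ L by linarith [hθ.2, hs.1, hf.L1]) h2, ha.1, hf.L1,
    mul_le_mul_of_nonneg_left (show -1 ≤ θ - s by linarith [hθ.1, hs.2]) h2]

lemma lim (hf : Rx f L) (h1 : ContDiff ℝ 1 f) (hg : Gm Ω r0) (hχ : ContDiff ℝ 1 χ)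
    (χI : ∀ x, χ x ∈ Icc (0 : ℝ) 1) (hθ : θ ∈ Icc (0 : ℝ) 1) {u : ℕ → Eu ι → ℝ}
    (u2 : ∀ n x, u n x ∈ Icc (0 : ℝ) 1) (u1 : ∀ n, ∀ x ∈ Ω, ContDiffAt ℝ 2 (u n) x)
    (ev : ∀ x ρ, 0 < ρ → closedBall x (ρ + ρ) ⊆ Ω → ∀ᶠ n in hyperfilter ℕ, ∀ y ∈ closedBall x ρ,
      lap (u n) y = -(χ y * f (u n y) + (1 - χ y) * (θ - u n y))) (C0 : 0 ≤ C)
    (hb : ∀ x ∈ Ω, ∀ ε > 0, ∀ᶠ n in hyperfilter ℕ, u n x ≤ C * dl Ω x + ε) :
    ∃ w, Sx Ω f χ θ C w ∧ ∀ x ∈ Ω, Tendsto (u · x) (hyperfilter ℕ) (𝓝 (w x)) := by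
  obtain ⟨w, hw⟩ := L0 (l := hyperfilter ℕ) (U := Ω) (w := u) (fun x hx => by
    obtain ⟨ρ, ρ0, h⟩ := ball2 hg.op hx 4 four_pos
    refine ⟨ρ, ρ0, L, (ev x (ρ + ρ) (by linarith) (by convert h using 2; ring)).mono
      fun n hn y hy => ⟨u1 n y (h (closedBall_subset_closedBall (by linarith) hy)),
        abs_le.2 ⟨by linarith [(u2 n y).1], (u2 n y).2⟩, ?_⟩⟩
    rw [hn y hy, abs_neg]
    exact src hf (χI y) hθ (u2 n y)) fun x _ => by
    obtain ⟨a, -, ha⟩ := (isCompact_Icc (a := (0 : ℝ)) (b := 1)).ultrafilter_le_nhds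
      ((hyperfilter ℕ).map (u · x)) (le_principal_iff.2 (Filter.mem_map.2 (univ_mem' fun n => u2 n x)))
    exact ⟨a, ha⟩
  have wc := hw.continuousOn (Frequently.of_forall fun n x hx =>
    (u1 n x hx).continuousAt.continuousWithinAt)
  have wI : ∀ x ∈ Ω, w x ∈ Icc (0 : ℝ) 1 := fun x hx =>
    isClosed_Icc.mem_of_tendsto (hw.tendsto_at hx) (.of_forall fun n => u2 n x)
  have w2 : ∀ x ∈ Ω, ContDiffAt ℝ 2 w x ∧ lap w x = -(χ x * f (w x) + (1 - χ x) * (θ - w x)) :=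
    fun x hx => by
    obtain ⟨ρ, ρ0, h⟩ := ball2 hg.op hx 2 two_pos
    rw [two_mul] at h
    have s : ball x ρ ⊆ Ω := (ball_subset_closedBall.trans (closedBall_subset_closedBall
      (by linarith))).trans h
    have e := (ev x ρ ρ0 h).mono fun n hn y (hy : y ∈ ball x ρ) =>
      And.intro (u1 n y (s hy)) (hn y (ball_subset_closedBall hy))
    have tu : ∀ F : ℝ → ℝ, TendstoUniformlyOn (fun _ : ℕ => F) F (hyperfilter ℕ) (Icc 0 1) :=
      fun F u hu => .of_forall fun n y _ => refl_mem_uniformity hu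
    have t1 := tlu_comp (hw.mono s) u2 (tu f) h1.continuous
    have t2 := (tlu_const (fun _ => θ) _ _).sub (hw.mono s)
    have c1 := h1.continuous.comp_continuousOn (wc.mono s)
    have c2 := (continuousOn_const (c := θ)).sub (wc.mono s)
    have c3 := h1.continuous_deriv le_rfl
    have c4 := hχ.continuous.continuousOn (s := ball x ρ)
    have c5 := (continuousOn_const (c := (1 : ℝ))).sub c4
    have c6 := (hχ.continuous_fderiv one_ne_zero).continuousOn (s := ball x ρ)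
    have t3 := (((tlu_const χ _ _).mul₀ t1 c4 c1).add ((tlu_const (fun y => 1 - χ y) _ _).mul₀ t2
      c5 c2)).neg
    obtain ⟨D, hD⟩ := L1 isOpen_ball e (hw.mono s) t3
    have Dc := hD.continuousOn (Frequently.of_forall fun n y hy => ((u1 n y (s hy)).fderiv_right
      (m := 1) le_rfl).continuousAt.continuousWithinAt)
    have c7 := c3.comp_continuousOn (wc.mono s)
    have fd := fun n y hy => ((u1 n y (s hy)).differentiableAt two_ne_zero).hasFDerivAt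
    have fχ := fun y => (hχ.differentiable one_ne_zero y).hasFDerivAt
    exact L2 isOpen_ball e (hw.mono s) t3 (fun n y hy => (((fχ y).mul ((h1.differentiable
      one_ne_zero _).hasDerivAt.comp_hasFDerivAt y (fd n y hy))).add (((fχ y).const_sub 1).mul
        ((fd n y hy).const_sub θ))).neg)
      ((((tlu_const χ _ _).smul₀ ((tlu_comp (hw.mono s) u2 (tu (deriv f)) c3).smul₀ hD c7 Dc) c4
        (c7.smul Dc)).add (t1.smul₀ (tlu_const (fderiv ℝ χ) _ _) c1 c6)).add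
        (((tlu_const (fun y => 1 - χ y) _ _).smul₀ hD.neg c5 Dc.neg).add (t2.smul₀
          (tlu_const (fun y => -fderiv ℝ χ y) _ _) c2 c6.neg))).neg x (mem_ball_self ρ0)
  have w3 : ∀ x ∈ Ω, w x ≤ C * dl Ω x := fun x hx =>
    le_of_forall_pos_le_add fun ε ε0 => le_of_tendsto (hw.tendsto_at hx) (hb x hx ε ε0)
  have e : ∀ x ∈ Ω, Ω.indicator w =ᶠ[𝓝 x] w := fun x hx =>
    mem_of_superset (hg.op.mem_nhds hx) fun y hy => indicator_of_mem hy w
  have i1 : ∀ x, Ω.indicator w x ∈ Icc 0 (min 1 (C * dl Ω x)) := fun x => by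
    by_cases hx : x ∈ Ω
    · rw [indicator_of_mem hx]; exact ⟨(wI x hx).1, le_min (wI x hx).2 (w3 x hx)⟩
    · have := dl_nn Ω x
      rw [indicator_of_notMem hx]; exact ⟨le_rfl, by positivity⟩
  refine ⟨Ω.indicator w, ⟨continuous_iff_continuousAt.2 fun x => ?_, fun x hx =>
    indicator_of_notMem hx w, fun x => ⟨(i1 x).1, (i1 x).2.trans (min_le_left _ _)⟩, fun x hx =>
    (w2 x hx).1.congr_of_eventuallyEq (e x hx), fun x hx => by
      rw [indicator_of_mem hx, ← (w2 x hx).2, lap, lap, (e x hx).fderiv.fderiv_eq],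
    fun x _ => (i1 x).2.trans (min_le_right _ _)⟩, fun x hx => by
      rw [indicator_of_mem hx]; exact hw.tendsto_at hx⟩
  by_cases hx : x ∈ Ω
  · exact (w2 x hx).1.continuousAt.congr (e x hx).symm
  · rw [ContinuousAt, indicator_of_notMem hx]
    exact squeeze_zero (fun y => (i1 y).1) (fun y => (i1 y).2.trans (min_le_right _ _)) (by
      simpa [dl, infDist_zero_of_mem (show x ∈ Ωᶜ from hx)] using
        ((continuous_infDist_pt Ωᶜ).tendsto x).const_mul C)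

lemma ex1 (hf : Rx f L) (h1 : ContDiff ℝ 1 f) (hg : Gm Ω r0) (hχ : ContDiff ℝ ∞ χ)
    (χI : ∀ x, χ x ∈ Icc (0 : ℝ) 1) (hθ : θ ∈ Icc (0 : ℝ) 1) {y0 : Eu ι} {l R : ℝ} (R0 : 0 < R)
    (hy0 : closedBall y0 (1 + R) ⊆ Ω) (χ1 : ∀ x ∈ closedBall y0 R, χ x = 1)
    (hl : ∀ s ∈ Icc (0 : ℝ) (1 - 1 / 2), l * s ≤ f s) (hR : ∀ x : Eu ι, ∃ L,
      Lap (fun z => (1 - ‖z - y0‖ ^ 2 / R ^ 2) ^ 2) x L ∧ -L < l * (1 - ‖x - y0‖ ^ 2 / R ^ 2) ^ 2) :
    ∃ w, Sx Ω f χ θ (Cd ι L * 2 / r0) w ∧ 1 - 1 / 2 ≤ w y0 := by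
  have hL : 0 ≤ L := zero_le_one.trans hf.L1
  have C1 := Cd1 (ι := ι) hL
  have r0p := hg.r0
  obtain ⟨B, hB⟩ := (isCompact_Icc (a := (0 : ℝ)) (b := 1)).exists_bound_of_continuousOn
    (h1.continuous_deriv le_rfl).continuousOn
  have B0 : 0 ≤ B := (norm_nonneg _).trans (hB 0 ⟨le_rfl, zero_le_one⟩)
  have n1 : ∀ n : ℕ, (0 : ℝ) < 1 / (n + 1) := fun n => by positivity
  choose β b1 b2 b3 using fun n : ℕ => exists_contMDiffMap_zero_one_of_isClosed (n := ⊤)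
    𝓘(ℝ, Eu ι) (s := (Ω ∩ ball y0 (n + R + 1))ᶜ)
    (t := closedBall y0 (n + R) ∩ {x | 1 / (n + 1 : ℝ) ≤ dl Ω x})
    (hg.op.inter isOpen_ball).isClosed_compl (isClosed_closedBall.inter (isClosed_le continuous_const
      (continuous_infDist_pt _))) (disjoint_compl_left_iff_subset.2 fun x hx =>
        ⟨dl_mem ((n1 n).trans_le hx.2), closedBall_subset_ball (lt_add_one _) hx.1⟩)
  have b4 := fun n : ℕ => HasCompactSupport.intro (f := β n) (isCompact_closedBall y0 (n + R + 1))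
      fun x hx => b1 n fun h => hx (ball_subset_closedBall h.2)
  choose u u1 u2 u3 using fun n : ℕ => pen2 hf h1 (Λ := n + B + 3) (a := 1 - 1 / 2)
    (β := fun x => β n x * χ x) (γ := fun x => β n x * (1 - χ x))
    (by linarith [n.cast_nonneg (α := ℝ)])
    (fun s hs => by linarith [abs_le.1 (hB s hs), n.cast_nonneg (α := ℝ)])
    ((β n).contMDiff.contDiff.mul hχ) (b4 n).mul_right ((β n).contMDiff.contDiff.mul
      (contDiff_const.sub hχ)) (b4 n).mul_right (fun x => ⟨mul_nonneg (b3 n x).1 (χI x).1,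
        mul_nonneg (b3 n x).1 (sub_nonneg.2 (χI x).2), by linarith [(b3 n x).2]⟩) hθ.1 hθ.2
    (fun x hx => by
      rw [χ1 x hx, mul_one]
      exact b2 n ⟨closedBall_subset_closedBall (by simp) hx, le_trans (div_le_one_of_le₀ (by simp)
        (by positivity)) (hg.le_dl (ball_subset_closedBall.trans ((cb hx).trans hy0)))⟩) R0
    (by norm_num) (by norm_num) hl hR
  obtain ⟨w, h, hw⟩ := lim hf h1 hg (hχ.of_le (by simp)) χI hθ u2 (fun n x _ => (u1 n x).1)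
    (fun x ρ ρ0 h => by
      filter_upwards [Nat.hyperfilter_le_atTop (tendsto_one_div_add_atTop_nhds_zero_nat.eventually
        (ge_mem_nhds ρ0)), Nat.hyperfilter_le_atTop (tendsto_natCast_atTop_atTop.eventually_ge_atTop
          (ρ + dist x y0))] with n k1 k2 y hy
      rw [(u1 n y).2, b2 n ⟨closedBall_subset_closedBall' (le_trans k2 (by linarith)) hy,
        le_trans k1 (hg.le_dl (ball_subset_closedBall.trans ((cb hy).trans h)))⟩]
      simp only [Pi.one_apply]; ring) (C := Cd ι L * 2 / r0) (by positivity) fun x hx ε ε0 => by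
      rcases le_total (dl Ω x) (r0 / 2) with h | h
      · obtain ⟨τ, ⟨t1, t2⟩, (t0 : 0 < τ)⟩ := ((small 4 r0p).and (small (Cd ι L * 2 / r0)
          (half_pos ε0)) |>.and self_mem_nhdsWithin).exists
        filter_upwards [Nat.hyperfilter_le_atTop (((tendsto_atTop_add_const_right _ 3
          (tendsto_atTop_add_const_right _ B tendsto_natCast_atTop_atTop)).const_div_atTop
            (2 * dd ι / τ ^ 2)).eventually (ge_mem_nhds (half_pos ε0)))] with n hn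
        have := bdy2 hL hg (Λ := n + B + 3) (by positivity) t0 (by linarith) (fun y => ⟨(u1 n y).1,
          by
            have k1 := (abs_le.1 (src hf (χI y) hθ (u2 n y))).2
            have k2 : 0 ≤ (n + B + 3) * u n y := mul_nonneg (by positivity) (u2 n y).1
            rw [(u1 n y).2]
            linarith [mul_le_mul_of_nonneg_left k1 (b3 n y).1, mul_le_of_le_one_left hL (b3 n y).2,
              mul_le_of_le_one_left k2 (b3 n y).2]⟩) (u2 n)
          (fun y hy => by rw [(u1 n y).2, b1 n fun h => hy h.1]; simp) hx h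
        rw [mul_div_right_comm (Cd ι L * 2)] at this
        linarith [show 2 * dd ι / τ ^ 2 / (n + B + 3) ≤ ε / 2 from hn]
      · refine .of_forall fun n => (u2 n x).2.trans (le_add_of_le_of_nonneg ?_ ε0.le)
        rw [div_mul_eq_mul_div, le_div_iff₀ r0p]
        linarith [mul_le_mul C1 h (by positivity) (by positivity)]
  exact ⟨w, h, ge_of_tendsto' (hw y0 (hy0 (mem_closedBall_self (by linarith)))) u3⟩

lemma Sx.pos {w : Eu ι → ℝ} (h : Sx Ω f χ θ C w) (ho : IsOpen Ω) (hc : IsConnected Ω)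
    (hs : ∀ x ∈ Ω, lap w x ≤ 0) {y0 : Eu ι} (y1 : y0 ∈ Ω) (y2 : 0 < w y0) : ∀ x ∈ Ω, 0 < w x := by
  refine fun x hx => hc.isPreconnected.subset_of_closure_inter_subset
    (isOpen_lt continuous_const h.c) ⟨y0, y1, y2⟩ (fun x hx => ?_) hx
  obtain ⟨c1, c0, p, hp⟩ := chain ι
  obtain ⟨r, r1, hr⟩ := Metric.isOpen_iff.1 ho x hx.2
  obtain ⟨y, y2, y3⟩ := Metric.mem_closure_iff.1 hx.1 (r / 2) (half_pos r1)
  obtain ⟨σ, σ0, hσ⟩ := nhds_basis_closedBall.mem_iff.1 (h.c.continuousAt.eventually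
    (lt_mem_nhds (half_lt_self y2)))
  have m1 := min_le_left σ (r / 8)
  have m2 := min_le_right σ (r / 8)
  exact lt_of_lt_of_le (by have : 0 < w y := y2; positivity) (hp _ x r
    ⟨h.c.continuousOn, fun z _ => (h.I z).1, fun z hz => ⟨_, hs z (hr hz), Lap.of (h.c2 z (hr hz))⟩⟩
    y (min σ (r / 8)) (w y / 2) (by positivity) (half_pos y2).le (by rw [dist_comm]; linarith)
    (fun z hz => le_of_lt (hσ (closedBall_subset_closedBall m1 hz))) x
    (mem_closedBall_self (by positivity)))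

theorem ex2 (hf : Rx f L) (h1 : ContDiff ℝ 1 f) (hg : Gm Ω r0) (hc : IsConnected Ω)
    (hb : ∀ R, ∃ y, closedBall y R ⊆ Ω) (hθ : θ ∈ Icc (0 : ℝ) 1) :
    ∃ (u : ℕ → Eu ι → ℝ) (w : Eu ι → ℝ), Sol Ω f w ∧
      (∀ x ∈ Ω, Tendsto (u · x) (hyperfilter ℕ) (𝓝 (w x))) ∧ ∀ n, ∃ χ C, Sx Ω f χ θ C (u n) ∧
        (∃ y ∈ Ω, 0 < u n y) ∧ (∀ x, χ x ∈ Icc (0 : ℝ) 1) ∧ ∃ K, IsCompact K ∧ ∀ x ∉ K, χ x = 0 := by
  obtain ⟨l, l0, hl⟩ := hf.lo (1 / 2) (by norm_num)
  obtain ⟨R, R0, hR⟩ := bump ι l0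
  obtain ⟨y0, hy0⟩ := hb (1 + R)
  have y1 := hy0 (mem_closedBall_self (by linarith))
  have C1 := Cd1 (ι := ι) (zero_le_one.trans hf.L1)
  have r0p := hg.r0
  choose χ b1 b2 b3 using fun n : ℕ => exists_contMDiffMap_zero_one_of_isClosed (n := ⊤)
    𝓘(ℝ, Eu ι) (s := (ball y0 (n + R + 1))ᶜ) (t := closedBall y0 (n + R))
    isOpen_ball.isClosed_compl isClosed_closedBall (disjoint_compl_left_iff_subset.2
      (closedBall_subset_ball (lt_add_one _)))
  choose u u1 u2 using fun n : ℕ => ex1 hf h1 hg (χ n).contMDiff.contDiff (b3 n) hθ R0 hy0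
    (fun x hx => b2 n (closedBall_subset_closedBall (by simp) hx)) hl (hR y0)
  obtain ⟨w, h, hw⟩ := lim hf h1 hg (χ := fun _ => 1) contDiff_const (by simp) hθ
    (fun n => (u1 n).I) (fun n => (u1 n).c2) (fun x ρ ρ0 h => by
      filter_upwards [Nat.hyperfilter_le_atTop (tendsto_natCast_atTop_atTop.eventually_ge_atTop
        (ρ + dist x y0))] with n k2 y hy
      rw [(u1 n).eq y (h (closedBall_subset_closedBall (by linarith) hy)),
        b2 n (closedBall_subset_closedBall' (le_trans k2 (by linarith)) hy)]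
      rfl) (C := Cd ι L * 2 / r0) (by positivity) fun x hx ε ε0 =>
    .of_forall fun n => ((u1 n).bd x hx).trans (by linarith)
  have e : ∀ x ∈ Ω, lap w x = -f (w x) := fun x hx => by simpa using h.eq x hx
  exact ⟨u, w, ⟨h.c, h.z, h.pos hg.op hc (fun x hx => e x hx ▸ neg_nonpos.2 (hf.nn _ (h.I x))) y1
    (lt_of_lt_of_le (by norm_num) (ge_of_tendsto' (hw y0 y1) u2)), fun x => (h.I x).2, h.c2, e⟩, hw,
    fun n => ⟨_, _, u1 n, ⟨y0, y1, lt_of_lt_of_le (by norm_num) (u2 n)⟩, b3 n, _,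
      isCompact_closedBall y0 (n + R + 1), fun x hx => b1 n fun h => hx (ball_subset_closedBall h)⟩⟩

lemma cmp2 {S K : Set (Eu ι)} (hS : IsClosed S) (hK : IsCompact K) {A B : Eu ι → ℝ}
    (hA : Continuous A) (hB : Continuous B) (A0 : ∀ x ∈ S, 0 ≤ A x) (B1 : ∀ x ∈ S, B x ≤ 1)
    (A1 : ∀ x ∈ S, 0 ≤ B x → 0 < A x) (h : ∀ x ∈ S, A x < B x → S ∈ 𝓝 x ∧ ∃ LA LB, Lap A x LA ∧
      Lap B x LB ∧ ∀ t ≥ 1, (t * A x = B x → t * LA < LB) ∧
        (x ∉ K → t * LA - LB ≤ t * A x - B x)) : ∀ x ∈ S, B x ≤ A x := by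
  have key : ∀ t ≥ 1, (∀ x ∈ S ∩ K, B x ≤ t * A x) → ∀ x ∈ S, B x ≤ t * A x :=
    fun t ht h1 x1 hx => not_lt.1 fun h2 => oy hS (W := fun x => t * A x - B x) (B := -1)
      ((continuous_const.mul hA).sub hB).continuousOn (fun x hx => by
        linarith [B1 x hx, mul_nonneg (zero_le_one.trans ht) (A0 x hx)]) hx (sub_pos.2 h2)
      fun x hx h3 => by
      obtain ⟨k1, LA, LB, k2, k3, k4⟩ := h x hx (by
        linarith [le_mul_of_one_le_left (A0 x hx) ht])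
      exact ⟨k1, _, ((k4 t ht).2 fun h' => by linarith [h1 x ⟨hx, h'⟩]).trans (by linarith),
        (k2.cmul t).sub k3⟩
  suffices ∀ x ∈ S ∩ K, B x ≤ 1 * A x by simpa using key 1 le_rfl this
  intro x1 hx
  by_contra h2
  have h3 : A x1 < B x1 := by simpa using h2
  obtain ⟨x, k1, k2⟩ := ((hK.inter_left hS).inter_right (isClosed_le continuous_const
    hB)).exists_isMaxOn ⟨x1, hx, (A0 x1 hx.1).trans h3.le⟩ (f := fun x => B x / A x)
    (hB.continuousOn.div hA.continuousOn fun x hx => (A1 x hx.1.1 hx.2).ne')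
  obtain ⟨t, ht⟩ : ∃ t, t = B x / A x := ⟨_, rfl⟩
  have a0 := A1 x k1.1.1 k1.2
  have k3 : ∀ y ∈ S ∩ K, 0 ≤ B y → B y / A y ≤ t := fun y hy h' => ht ▸ k2 ⟨hy, h'⟩
  have t1 : 1 < t := ((one_lt_div (A1 x1 hx.1 ((A0 x1 hx.1).trans h3.le))).2 h3).trans_le
    (k3 x1 hx ((A0 x1 hx.1).trans h3.le))
  have e : t * A x = B x := by rw [ht]; field_simp
  have k4 := key t t1.le fun y hy => by
    rcases le_total 0 (B y) with h' | h'
    · exact (div_le_iff₀ (A1 y hy.1 h')).1 (k3 y hy h')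
    · exact h'.trans (mul_nonneg (by linarith) (A0 y hy.1))
  obtain ⟨l1, LA, LB, l2, l3, l4⟩ := h x k1.1.1 (e ▸ lt_mul_of_one_lt_left a0 t1)
  linarith [(l4 t t1.le).1 e, ((l2.cmul t).sub l3).min (by
    filter_upwards [l1] with y hy
    linarith [k4 y hy])]

end Pool.Agent.H.MP_3eb465_an
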