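import Pool.Agent.H.MP_3eb465_an.B

set_option linter.unusedSectionVars false
set_option linter.unusedVariables false
set_option linter.dupNamespace false
set_option linter.unusedSimpArgs false

namespace Pool.Agent.H.MP_3eb465_an

open Filter Topology Set Metric Pool.Agent.H.MP_0f8a1e_an Real
open scoped RealInnerProductSpace ContDiff

abbrev X := Eu (Fin (9 + 1))
abbrev jl : Fin (9 + 1) := Fin.last 9

noncomputable def m (j : Fin (9 + 1)) : ℝ := if j = 0 ∨ j = jl then 0 else 1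
noncomputable def q (x : X) : ℝ := ∑ j, m j * x j ^ 2
noncomputable def rr (x : X) : ℝ := 1 / (1 + q x)
noncomputable def CC (x : X) : ℝ := (∏ j, cosh (m j * x j)) ^ 8
noncomputable def Om : Set X := {x | 0 < x jl + cos (x 0) * CC x}

lemma m01 (j : Fin (9 + 1)) : m j = 0 ∨ m j = 1 := by unfold m; split_ifs <;> simp
lemma m0 : m 0 = 0 := by simp [m]
lemma ml : m jl = 0 := by simp [m]
lemma msum : ∑ j, m j = 8 := by simp [m, Fin.sum_univ_succ]; norm_num
lemma q0 (x : X) : 0 ≤ q x := Finset.sum_nonneg fun j _ => by rcases m01 j with h | h <;> simp [h, sq_nonneg]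
lemma r0 (x : X) : 0 < rr x := by have := q0 x; unfold rr; positivity
lemma r1 (x : X) : rr x ≤ 1 := div_le_one_of_le₀ (by linarith [q0 x]) (by linarith [q0 x])
lemma qc : Continuous q := by unfold q; fun_prop
lemma rc : Continuous rr := continuous_const.div (continuous_const.add qc) fun x => by linarith [q0 x]
lemma Cc : Continuous CC := by unfold CC; fun_prop
lemma C0 (x : X) : 0 < CC x := pow_pos (Finset.prod_pos fun j _ => cosh_pos _) _

lemma Cr (x : X) : 1 ≤ CC x * rr x ^ 4 := by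
  have a : ∀ s : Finset (Fin (9 + 1)), 1 + ∑ j ∈ s, m j * x j ^ 2 ≤ ∏ j ∈ s, cosh (m j * x j) ^ 2 :=
    fun s => by
    induction s using Finset.induction_on with
    | empty => simp
    | insert j s hj ih =>
      have b : 0 ≤ ∑ j ∈ s, m j * x j ^ 2 :=
        Finset.sum_nonneg fun j _ => by rcases m01 j with h | h <;> simp [h, sq_nonneg]
      rw [Finset.sum_insert hj, Finset.prod_insert hj]
      rcases m01 j with h | h
      · simpa [h] using ih
      have c := pow_le_pow_left₀ (abs_nonneg _) (self_le_sinh_iff.2 (abs_nonneg (x j))) 2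
      rw [← abs_sinh, sq_abs, sq_abs] at c
      rw [h, one_mul, one_mul, cosh_sq']
      nlinarith [sq_nonneg (x j)]
  have := pow_le_pow_left₀ (add_nonneg zero_le_one (q0 x)) (a Finset.univ) 4
  rw [Finset.prod_pow, ← pow_mul] at this
  rw [rr, div_pow, one_pow, ← div_eq_mul_one_div, one_le_div (pow_pos (by linarith [q0 x]) 4)]
  exact this

lemma Jq (x : X) (i : Fin (9 + 1)) :
    J2 (fun τ : ℝ => q (x + τ • eb i)) (2 * m i * x i) (2 * m i) := by
  have := (J2.const (q x)).add (((J2.line (2 * x i) 1).mul (J2.line 0 1)).cmul (m i))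
  refine (this.cast (by simp; ring) (by simp; ring)).congr (.of_forall fun τ => ?_)
  simp only [q, ← sub_eq_iff_eq_add', ← Finset.sum_sub_distrib]
  rw [Finset.sum_eq_single i (fun j _ h => by simp [eb, h]) (by simp)]
  simp [eb]; ring

lemma lap3 {α α' β β' : ℝ → ℝ} {a2 b2 : ℝ} (x : X) (b : ℕ) (h1 : ∀ s, HasDerivAt α (α' s) s)
    (h2 : HasDerivAt α' a2 (x 0)) (h3 : ∀ s, HasDerivAt β (β' s) s) (h4 : HasDerivAt β' b2 (x jl)) :
    Lap (fun z : X => α (z 0) * β (z jl) * rr z ^ b) x (rr x ^ b * (a2 * β (x jl) + α (x 0) * b2 +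
      α (x 0) * β (x jl) * (4 * b * (b + 1) * (rr x - rr x ^ 2) - 16 * b * rr x))) := by
  have p : 0 < 1 + q x := by linarith [q0 x]
  have d : ∀ t : ℝ, 1 + t ≠ 0 → HasDerivAt (fun t : ℝ => (1 / (1 + t)) ^ b)
      (-b * (1 / (1 + t)) ^ b / (1 + t)) t := fun t ht => (pw_d 1 b ht).comp_const_add 1 t
  refine ⟨_, _, fun i => (((J2.line (x 0) (eb i 0)).scomp (.of_forall h1) (by simpa using h2)).mul
    ((J2.line (x jl) (eb i jl)).scomp (.of_forall h3) (by simpa using h4))).mul ((Jq x i).scomp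
      (ψ := fun t => (1 / (1 + t)) ^ b) (c := b * (b + 1) * rr x ^ b * rr x ^ 2) (by
        simp only [zero_smul, add_zero]
        filter_upwards [lt_mem_nhds (show -1 < q x by linarith)] with t ht
        exact d t (by linarith)) (by
        simp only [zero_smul, add_zero]
        exact (((d _ p.ne').const_mul _).div ((hasDerivAt_id _).const_add 1) p.ne').congr_deriv (by
          simp only [rr, id]; field_simp; ring))), ?_⟩
  rw [Finset.sum_congr rfl (g := fun i => (if i = 0 then rr x ^ b * (a2 * β (x jl)) else 0) +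
    (if i = jl then rr x ^ b * (α (x 0) * b2) else 0) + α (x 0) * β (x jl) * rr x ^ b *
      (4 * b * (b + 1) * rr x ^ 2 * (m i * x i ^ 2) - 2 * b * rr x * m i)) fun i _ => by
      simp only [zero_smul, add_zero, smul_eq_mul, zero_mul]
      rw [div_eq_mul_one_div (_ * _) (1 + q x), show 1 / (1 + q x) = rr x from rfl]
      by_cases e : i = 0
      · subst e; simp [eb, m0]; ring
      by_cases e' : i = jl
      · subst e'; simp [eb, ml]; ring
      simp [eb, m, e, e', Ne.symm e, Ne.symm e']; ring]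
  have e : rr x * q x = 1 - rr x := by rw [rr]; field_simp; ring
  simp only [Finset.sum_add_distrib, Finset.sum_ite_eq', Finset.mem_univ, if_true,
    ← Finset.mul_sum, Finset.sum_sub_distrib, msum]
  rw [show ∑ i, m i * x i ^ 2 = q x from rfl]
  linear_combination α (x 0) * β (x jl) * rr x ^ b * (4 * b * (b + 1)) * rr x * e

noncomputable def W (x : X) : ℝ := 7 * (cos (x 0) * 1 * rr x ^ 1 + cos (x 0) * x jl ^ 2 * rr x ^ 2) +
  (1 - 2 * cos (x 0) ^ 2) * (1 + x jl ^ 2) * rr x ^ 3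

lemma Wc : Continuous W := by have := rc; unfold W; fun_prop

lemma ineq {c y r : ℝ} (r0 : 0 < r) (r1 : r ≤ 1) (c1 : c ≤ 1) (c0 : -(r ^ 2 / 1000) ≤ c) :
    7 * c * (-6 * r ^ 2 - 8 * r ^ 3 - y ^ 2 * (8 * r ^ 3 + 24 * r ^ 4)) - (1 - 2 * c ^ 2) *
      ((1 + 3 * y ^ 2) * r ^ 3 + 48 * (1 + y ^ 2) * r ^ 5) < 0 ∧
    (1 + y ^ 2) * r ^ 3 / 4 ≤ 7 * (c * 1 * r ^ 1 + c * y ^ 2 * r ^ 2) +
      (1 - 2 * c ^ 2) * (1 + y ^ 2) * r ^ 3 ∧ (0 ≤ c → (1 + y ^ 2) * r ^ 3 ≤
        7 * (c * 1 * r ^ 1 + c * y ^ 2 * r ^ 2) + (1 - 2 * c ^ 2) * (1 + y ^ 2) * r ^ 3) := by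
  obtain ⟨Y, Y0, hY⟩ : ∃ Y ≥ 0, y ^ 2 = Y := ⟨_, sq_nonneg y, rfl⟩
  have p : ∀ a b : ℕ, a ≤ b → r ^ b ≤ r ^ a := fun a b h => pow_le_pow_of_le_one r0.le r1 h
  have pY : ∀ a b : ℕ, a ≤ b → Y * r ^ b ≤ Y * r ^ a := fun a b h =>
    mul_le_mul_of_nonneg_left (p a b h) Y0
  obtain ⟨k, hk⟩ : ∃ k, k = (1 + Y) * r ^ 3 := ⟨_, rfl⟩
  obtain ⟨g, hg⟩ : ∃ g, g = (1 + 3 * Y) * r ^ 3 + 48 * (1 + Y) * r ^ 5 := ⟨_, rfl⟩
  obtain ⟨D, hD⟩ : ∃ D, D = 6 * r ^ 2 + 8 * r ^ 3 + Y * (8 * r ^ 3 + 24 * r ^ 4) := ⟨_, rfl⟩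
  obtain ⟨P, hP⟩ : ∃ P, P = r ^ 1 + Y * r ^ 2 := ⟨_, rfl⟩
  have k0 : 0 < k := by rw [hk]; positivity
  have Y3 : 0 ≤ Y * r ^ 3 := by positivity
  have Y4 : 0 ≤ Y * r ^ 4 := by positivity
  have Y5 : 0 ≤ Y * r ^ 5 := by positivity
  have g1 : k ≤ g := by rw [hk, hg]; linarith [pow_pos r0 5]
  have g2 : g ≤ 51 * k := by rw [hk, hg]; linarith [p 3 5 (by omega), pY 3 5 (by omega), pow_pos r0 3]
  have D1 : 8 * k ≤ D := by rw [hk, hD]; linarith [pow_pos r0 2]
  have D2 : r ^ 2 * D ≤ 32 * k := by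
    rw [hk, hD]; linarith [p 3 4 (by omega), p 3 5 (by omega), pY 3 5 (by omega), pY 3 6 (by omega),
      pow_pos r0 3]
  have P1 : k ≤ P := by rw [hk, hP]; linarith [p 1 3 (by omega), pY 2 3 (by omega)]
  have P2 : r ^ 2 * P ≤ k := by rw [hk, hP]; linarith [pY 3 4 (by omega)]
  rw [hY, show -6 * r ^ 2 - 8 * r ^ 3 - Y * (8 * r ^ 3 + 24 * r ^ 4) = -D by rw [hD]; ring, ← hg,
    show c * 1 * r ^ 1 + c * Y * r ^ 2 = c * P by rw [hP]; ring, mul_assoc _ (1 + Y), ← hk]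
  clear hk hg hD hP hY pY
  rcases le_or_gt 0 c with h | h
  · have a : k ≤ 7 * (c * P) + (1 - 2 * c ^ 2) * k := by
      nlinarith [mul_le_mul_of_nonneg_left P1 h, mul_nonneg (mul_nonneg h k0.le) (sub_nonneg.2 c1),
        mul_nonneg h k0.le]
    refine ⟨?_, by linarith, fun _ => a⟩
    have b := mul_nonneg (mul_nonneg (sub_nonneg.2 c1) (show 0 ≤ 1 + 2 * c by linarith))
      (k0.le.trans g1)
    rcases h.eq_or_lt with e | e
    · rw [← e]; linarith
    · linarith [mul_le_mul_of_nonneg_left D1 h, mul_le_mul_of_nonneg_left g2 h, mul_pos e k0]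
  · have c2 : c ^ 2 ≤ 1 / 4 := by nlinarith [p 0 2 (by omega)]
    refine ⟨?_, ?_, fun h' => absurd h (not_lt.2 h')⟩
    · linarith [mul_le_mul_of_nonneg_right c0 (show 0 ≤ D by linarith),
        mul_le_mul_of_nonneg_right c2 (k0.le.trans g1)]
    · linarith [mul_le_mul_of_nonneg_right c0 (k0.le.trans P1), mul_le_mul_of_nonneg_right c2 k0.le]

lemma Wl (x : X) (h : -(rr x ^ 2 / 1000) ≤ cos (x 0)) : ∃ L, Lap W x L ∧ L < -W x := by
  have c := fun s => hasDerivAt_cos s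
  have s := (hasDerivAt_sin (x 0)).neg
  refine ⟨_, (((lap3 x 1 c s (fun s => hasDerivAt_const s 1) (hasDerivAt_const _ _)).add
    (lap3 x 2 c s (β := fun s => s ^ 2) (β' := fun s => 2 * s) (fun s => by
      simpa using hasDerivAt_pow 2 s) ((hasDerivAt_id' _).const_mul 2))).cmul 7).add
    (lap3 x 3 (α := fun s => 1 - 2 * cos s ^ 2) (α' := fun s => 4 * (cos s * sin s))
      (β := fun s => 1 + s ^ 2) (β' := fun s => 2 * s) (fun s => ((((c s).pow 2).const_mul
        2).const_sub 1).congr_deriv (by simp; ring)) (((c _).mul (hasDerivAt_sin _)).const_mul 4)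
      (fun s => by simpa using (hasDerivAt_pow 2 s).const_add 1) ((hasDerivAt_id' _).const_mul 2)),
    ?_⟩
  have := (ineq (y := x jl) (r0 x) (r1 x) (cos_le_one _) h).1
  have e := sin_sq (x 0)
  rw [show -sin (x 0) * sin (x 0) = -sin (x 0) ^ 2 by ring, e, W]
  push_cast
  linarith

noncomputable def ff (s : ℝ) : ℝ := s - 4 * max (s - 1 / 2) 0 ^ 2

lemma ff_d (s : ℝ) : HasDerivAt ff (1 - 8 * max (s - 1 / 2) 0) s := by
  have : ∀ t : ℝ, HasDerivAt (fun t : ℝ => max t 0 ^ 2) (2 * max t 0) t := fun t => by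
    rcases lt_trichotomy t 0 with h | rfl | h
    · rw [max_eq_right h.le, mul_zero]
      exact (hasDerivAt_const t 0).congr_of_eventuallyEq ((gt_mem_nhds h).mono fun s hs => by
        simp [max_eq_right (le_of_lt hs)])
    · rw [hasDerivAt_iff_isLittleO_nhds_zero]
      refine (Asymptotics.IsBigO.of_bound 1 (.of_forall fun s => ?_)).trans_isLittleO
        (Asymptotics.isLittleO_pow_id one_lt_two)
      rcases le_total s 0 with h | h <;> simp [h, sq_nonneg]
    · rw [max_eq_left h.le]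
      exact (by simpa using hasDerivAt_pow 2 t : HasDerivAt (fun t : ℝ => t ^ 2) (2 * t)
        t).congr_of_eventuallyEq ((lt_mem_nhds h).mono fun s hs => by simp [max_eq_left (le_of_lt hs)])
  exact ((hasDerivAt_id' s).sub (((this _).comp_sub_const s (1 / 2)).const_mul 4)).congr_deriv
    (by ring)

lemma ff_dd : deriv ff = fun s => 1 - 8 * max (s - 1 / 2) 0 := funext fun s => (ff_d s).deriv

lemma ff1 : ContDiff ℝ 1 ff := contDiff_one_iff_deriv.2 ⟨fun s => (ff_d s).differentiableAt, by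
  rw [ff_dd]; fun_prop⟩

lemma ff_le (s : ℝ) : ff s ≤ s := sub_le_self _ (by positivity)
lemma ff_eq {s : ℝ} (h : s ≤ 1 / 2) : ff s = s := by
  rw [ff, max_eq_right (by linarith)]; ring

lemma lower {χ u : X → ℝ} {C : ℝ} (h : Sx Om ff χ 1 C u) (hp : ∀ x ∈ Om, 0 < u x)
    (χI : ∀ x, χ x ∈ Icc (0 : ℝ) 1) {K : Set X} (hK : IsCompact K) (h0 : ∀ x ∉ K, χ x = 0) :
    ∀ x ∈ {x : X | 0 ≤ cos (x 0)}, 1 / 2 * (cos (x 0) - W x) ≤ u x := by
  have a : ∀ x : X, 0 ≤ cos (x 0) → (1 + x jl ^ 2) * rr x ^ 3 ≤ W x := fun x hx =>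
    (ineq (r0 x) (r1 x) (cos_le_one _) (le_trans (neg_nonpos.2 (by positivity)) hx)).2.2 hx
  have k0 : ∀ x : X, 0 < (1 + x jl ^ 2) * rr x ^ 3 := fun x => by have := r0 x; positivity
  have b : ∀ x : X, 0 ≤ cos (x 0) → 0 ≤ 1 / 2 * (cos (x 0) - W x) → x ∈ Om := fun x hx h' => by
    by_contra h1
    have h2 : x jl + cos (x 0) * CC x ≤ 0 := not_lt.1 h1
    have h3 := mul_le_mul_of_nonneg_right h2 (pow_pos (r0 x) 4).le
    have h4 := pow_le_pow_of_le_one (r0 x).le (r1 x) (show 3 ≤ 4 by omega)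
    linarith [a x hx, k0 x, mul_le_mul_of_nonneg_left (Cr x) hx, mul_nonneg (sq_nonneg (x jl + 1))
      (pow_pos (r0 x) 4).le, mul_le_mul_of_nonneg_left h4 (show 0 ≤ 1 + x jl ^ 2 by positivity)]
  refine cmp2 (isClosed_le continuous_const (by fun_prop)) hK h.c (by have := Wc; fun_prop)
    (fun x _ => (h.I x).1) (fun x hx => by linarith [a x hx, k0 x, cos_le_one (x 0)])
    (fun x hx h' => hp x (b x hx h')) fun x hx h' => ?_
  have u0 := (h.I x).1
  have c1 := cos_le_one (x 0)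
  have x0 := b x hx (by linarith)
  have c0 : 0 < cos (x 0) := by linarith [a x hx, k0 x]
  obtain ⟨L, l1, l2⟩ := Wl x (le_trans (neg_nonpos.2 (by positivity)) hx)
  have u1 : u x ≤ 1 / 2 := by linarith [a x hx, k0 x]
  refine ⟨mem_of_superset ((isOpen_lt (f := fun _ => (0 : ℝ)) (g := fun x : X => cos (x 0))
    continuous_const (by fun_prop)).mem_nhds c0) fun y (hy : 0 < cos (y 0)) => hy.le, _, _,
    Lap.of (h.c2 x x0), ((Lap.coord x 0 (.of_forall hasDerivAt_cos)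
      (hasDerivAt_sin _).neg).sub l1).cmul _, fun t ht => ⟨fun e => ?_, fun e => ?_⟩⟩
  · rw [h.eq x x0, ff_eq u1]
    linarith [mul_nonneg (zero_le_one.trans ht) (mul_nonneg (sub_nonneg.2 (χI x).2)
      (show 0 ≤ 1 - 2 * u x by linarith))]
  · rw [h.eq x x0, h0 x e]
    linarith [a x hx, k0 x]

lemma upper {χ u : X → ℝ} {C : ℝ} (h : Sx Om ff χ 0 C u)
    (χI : ∀ x, χ x ∈ Icc (0 : ℝ) 1) {K : Set X} (hK : IsCompact K) (h0 : ∀ x ∉ K, χ x = 0) :
    ∀ x ∈ {x : X | 0 ≤ x jl + cos (x 0) * CC x} ∩ {x | x jl ≤ rr x ^ 2 / 1000 * CC x},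
      u x ≤ 4000000 * W x := by
  have c0 : ∀ x ∈ {x : X | 0 ≤ x jl + cos (x 0) * CC x} ∩ {x | x jl ≤ rr x ^ 2 / 1000 * CC x},
      -(rr x ^ 2 / 1000) ≤ cos (x 0) := fun x hx => le_of_mul_le_mul_right (by
        linarith [show 0 ≤ x jl + cos (x 0) * CC x from hx.1,
          show x jl ≤ rr x ^ 2 / 1000 * CC x from hx.2]) (C0 x)
  have a := fun x hx => show _ ≤ W x from
    (ineq (y := x jl) (r0 x) (r1 x) (cos_le_one _) (c0 x hx)).2.1
  have k0 : ∀ x : X, 0 < (1 + x jl ^ 2) * rr x ^ 3 := fun x => by have := r0 x; positivity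
  have W0 := fun x hx => show 0 < 4000000 * W x by linarith [a x hx, k0 x]
  have := Cc
  have := rc
  refine cmp2 ((isClosed_le continuous_const (by fun_prop)).inter (isClosed_le (by fun_prop)
    (by fun_prop))) hK (continuous_const.mul Wc) h.c (fun x hx => (W0 x hx).le)
    (fun x _ => (h.I x).2) (fun x hx _ => W0 x hx) fun x hx h' => ?_
  have x0 : x ∈ Om := by
    by_contra h1
    linarith [h.z x h1, W0 x hx]
  have x1 : x jl < rr x ^ 2 / 1000 * CC x := lt_of_le_of_ne hx.2 fun e => by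
    have e1 : 1 / 1000 ≤ x jl * rr x ^ 2 := by rw [e]; linarith [Cr x]
    have e2 := pow_le_pow_left₀ (by norm_num) e1 2
    have h4 := pow_le_pow_of_le_one (r0 x).le (r1 x) (show 3 ≤ 4 by omega)
    linarith [a x hx, (h.I x).2, pow_pos (r0 x) 3,
      mul_le_mul_of_nonneg_left h4 (sq_nonneg (x jl))]
  obtain ⟨L, l1, l2⟩ := Wl x (c0 x hx)
  refine ⟨inter_mem (mem_of_superset ((isOpen_lt (f := fun _ => (0 : ℝ))
    (g := fun x : X => x jl + cos (x 0) * CC x) continuous_const (by fun_prop)).mem_nhds x0)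
      fun y (hy : 0 < y jl + cos (y 0) * CC y) => hy.le) (mem_of_superset ((isOpen_lt
        (f := fun x : X => x jl) (g := fun x => rr x ^ 2 / 1000 * CC x) (by fun_prop)
          (by fun_prop)).mem_nhds x1) fun y (hy : y jl < rr y ^ 2 / 1000 * CC y) => hy.le), _, _,
    l1.cmul _, Lap.of (h.c2 x x0), fun t ht => ⟨fun e => ?_, fun e => ?_⟩⟩
  · rw [h.eq x x0]
    linarith [mul_lt_mul_of_pos_left l2 (zero_lt_one.trans_le ht), mul_le_mul_of_nonneg_left
      (ff_le (u x)) (χI x).1, mul_nonneg (sub_nonneg.2 (χI x).2) (h.I x).1]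
  · rw [h.eq x x0, h0 x e]
    linarith [mul_lt_mul_of_pos_left l2 (zero_lt_one.trans_le ht),
      mul_pos (zero_lt_one.trans_le ht) (W0 x hx)]

end Pool.Agent.H.MP_3eb465_an
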