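import Pool.Agent.H.MP_3eb465_an.C

set_option linter.unusedSectionVars false
set_option linter.unusedVariables false
set_option linter.dupNamespace false
set_option linter.unusedSimpArgs false

namespace Pool.Agent.H.MP_3eb465_an

open Filter Topology Set Metric Pool.Agent.H.MP_0f8a1e_an Real
open scoped RealInnerProductSpace ContDiff

noncomputable def ph (y : Eu (Fin 9)) : ℝ := -(cos (y 0) * (∏ i, cosh (m (Fin.castSucc i) * y i)) ^ 8)

lemma ph_c : ContDiff ℝ ∞ ph := by unfold ph; fun_prop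

lemma Om_eq : Om = {x | ph (hd x) < x jl} := by
  ext x
  simp only [Om, ph, CC, mem_ofPred_eq, Fin.prod_univ_castSucc (n := 9), ml, zero_mul, cosh_zero,
    mul_one, neg_lt_iff_pos_add]
  rfl

lemma Om_o : IsOpen Om := by have := Cc; exact isOpen_lt continuous_const (by fun_prop)

lemma up (x : X) (t : ℝ) : (x + t • eb jl) jl = x jl + t ∧ (x + t • eb jl) 0 = x 0 ∧
    CC (x + t • eb jl) = CC x := by
  refine ⟨by simp [eb], by simp [eb], congrArg (· ^ 8) (Finset.prod_congr rfl fun j _ => ?_)⟩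
  by_cases e : j = jl
  · simp [e, ml]
  · simp [eb, e]

lemma Om_c : IsConnected Om := by
  have := Cc
  have h := ((convex_halfSpace_gt (f := fun x : X => x jl) ⟨fun _ _ => rfl, fun _ _ => rfl⟩
    0).isConnected ⟨eb jl, by simp [eb]⟩).image (fun z => z + -(cos (z 0) * CC z) • eb jl)
    (Continuous.continuousOn (by fun_prop))
  convert h using 1
  ext x
  constructor
  · intro hx
    obtain ⟨a, b, c⟩ := up x (cos (x 0) * CC x)
    exact ⟨x + (cos (x 0) * CC x) • eb jl, by rw [mem_ofPred_eq, a]; exact hx, by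
      simp only [b, c]; module⟩
  · rintro ⟨z, hz, rfl⟩
    obtain ⟨a, b, c⟩ := up z (-(cos (z 0) * CC z))
    simpa only [Om, mem_ofPred_eq, a, b, c, neg_add_cancel_right] using hz

lemma Om_b (R : ℝ) : ∃ y, closedBall y R ⊆ Om := by
  have := Cc
  obtain ⟨M, hM⟩ := (isCompact_closedBall (0 : X) R).exists_bound_of_continuousOn
    (f := fun z => z jl + cos (z 0) * CC z) (Continuous.continuousOn (by fun_prop))
  refine ⟨(M + 1) • eb jl, fun x hx => ?_⟩
  obtain ⟨a, b, c⟩ := up (x - (M + 1) • eb jl) (M + 1)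
  rw [sub_add_cancel] at a b c
  have := abs_le.1 (hM (x - (M + 1) • eb jl) (by simpa [dist_eq_norm] using hx))
  rw [Om, mem_ofPred_eq, a, b, c]
  linarith

noncomputable def Ph (k : ℝ × ℝ × (Fin (9 + 1) → ℝ)) (x : X) : ℝ :=
  -k.1 + (∏ j, (1 - (m j * k.2.2 j) ^ 2)) ^ 4 * x jl + (k.1 * cos (x 0) - k.2.1 * sin (x 0)) *
    (∏ j, (cosh (m j * x j) + k.2.2 j * sinh (m j * x j))) ^ 8

lemma Ph_e (p x : X) (hp : p jl + cos (p 0) * CC p = 0) : (p + x) jl + cos ((p + x) 0) * CC (p + x) =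
    CC p * Ph (cos (p 0), sin (p 0), fun j => tanh (m j * p j)) x := by
  have a : CC (p + x) = CC p * (∏ j, (cosh (m j * x j) + tanh (m j * p j) * sinh (m j * x j))) ^ 8 := by
    rw [CC, CC, ← mul_pow, ← Finset.prod_mul_distrib]
    refine congrArg (· ^ 8) (Finset.prod_congr rfl fun j _ => ?_)
    rw [PiLp.add_apply, mul_add, cosh_add, tanh_eq_sinh_div_cosh]
    have := (cosh_pos (m j * p j)).ne'
    field_simp
  have b : CC p * (∏ j, (1 - (m j * tanh (m j * p j)) ^ 2)) ^ 4 = 1 := by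
    rw [CC, show 8 = 2 * 4 from rfl, pow_mul, ← mul_pow, ← Finset.prod_pow,
      ← Finset.prod_mul_distrib, Finset.prod_eq_one, one_pow]
    intro j _
    rcases m01 j with h | h
    · simp [h]
    have := (cosh_pos (p j)).ne'
    rw [h, one_mul, one_mul, tanh_eq_sinh_div_cosh]
    field_simp
    exact cosh_sq_sub_sinh_sq _
  simp only [a, Ph, PiLp.add_apply, cos_add]
  linear_combination hp - x jl * b

lemma dd1' (α β e a b c t : ℝ) : HasDerivAt (fun τ : ℝ => -α + e * (τ * a) + (α * cos (τ * b) -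
    β * sin (τ * b)) * (cosh (c * τ) + t * sinh (c * τ)) ^ 8) (e * a - β * b + 8 * α * (c * t)) 0 := by
  have a := fun c : ℝ => (hasDerivAt_id' (0 : ℝ)).mul_const c
  have b := (hasDerivAt_id' (0 : ℝ)).const_mul c
  exact ((((a _).const_mul _).const_add _).fun_add ((((a _).cos.const_mul _).fun_sub
    ((a _).sin.const_mul _)).fun_mul ((b.cosh.fun_add (b.sinh.const_mul _)).fun_pow 8))).congr_deriv
    (by simp; ring)

lemma Ph_d (k : ℝ × ℝ × (Fin (9 + 1) → ℝ)) (i : Fin (9 + 1)) :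
    HasDerivAt (fun τ : ℝ => Ph k (τ • eb i)) ((∏ j, (1 - (m j * k.2.2 j) ^ 2)) ^ 4 * eb i jl -
      k.2.1 * eb i 0 + 8 * k.1 * (m i * k.2.2 i)) 0 := by
  have e : ∀ τ : ℝ, ∏ j, (cosh (m j * (τ • eb i) j) + k.2.2 j * sinh (m j * (τ • eb i) j)) =
      cosh (m i * τ) + k.2.2 i * sinh (m i * τ) := fun τ => by
    rw [Finset.prod_eq_single i (fun j _ h => by simp [eb, h]) (by simp)]
    simp [eb]
  refine (dd1' _ _ _ _ _ _ _).congr_of_eventuallyEq (.of_forall fun τ => ?_)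
  simp only [Ph, e]
  rfl

theorem Om_ch : ∃ r > 0, ∃ M, ∀ p ∈ frontier Om, ∃ F, Ch F r M ∧ ∀ z, z ∈ Om ↔ 0 < F (z - p) := by
  obtain ⟨r, r0, M, h⟩ := charts ((isCompact_closedBall (0 : ℝ × ℝ × (Fin (9 + 1) → ℝ))
    1).inter_right (isClosed_eq (f := fun k => k.1 ^ 2 + k.2.1 ^ 2) (g := fun _ => 1) (by fun_prop)
      continuous_const)) (Φ := Ph) (by unfold Ph; fun_prop) (fun k _ => by simp [Ph])
    fun k hk => by
      by_contra h
      have h1 := fun i => not_not.1 fun h' => h ⟨i, _, h', Ph_d k i⟩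
      have b : k.2.1 = 0 := by simpa [eb, m0] using h1 0
      have a : k.1 ≠ 0 := fun a => by simpa [a, b] using hk.2
      have c : ∀ i, m i * k.2.2 i = 0 := fun i => by
        by_cases e : i = jl
        · simp [e, ml]
        simpa [eb, b, a, Ne.symm e] using h1 i
      simpa [eb, b, c] using h1 jl
  refine ⟨r, r0, M, fun p hp => ⟨_, h (cos (p 0), sin (p 0), fun j => tanh (m j * p j))
    ⟨mem_closedBall_zero_iff.2 (max_le (abs_cos_le_one _) (max_le (abs_sin_le_one _)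
      ((pi_norm_le_iff_of_nonneg zero_le_one).2 fun j => (abs_tanh_lt_one _).le))),
      cos_sq_add_sin_sq _⟩, fun z => ?_⟩⟩
  have := Cc
  have e := Ph_e p (z - p) (frontier_lt_subset_eq continuous_const (by fun_prop) hp).symm
  rw [add_sub_cancel] at e
  rw [Om, mem_ofPred_eq, e, mul_pos_iff_of_pos_left (C0 p)]

lemma exL (n : ℕ) : ∃ P : Eu (Fin (n + 1)) →L[ℝ] Eu (Fin n), ∀ y, P y = hd y :=
  ⟨(EuclideanSpace.equiv (Fin n) ℝ).symm ∘L
    ContinuousLinearMap.pi fun i => EuclideanSpace.proj (Fin.castSucc i), fun y => rfl⟩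

lemma gm_ch {n : ℕ} {Ω : Set (Eu (Fin (n + 1)))} (ho : IsOpen Ω) (hne : Ωᶜ.Nonempty)
    (h : ∃ r > 0, ∃ M, ∀ p ∈ frontier Ω, ∃ F, Ch F r M ∧ ∀ z, z ∈ Ω ↔ 0 < F (z - p)) :
    ∃ s, Gm Ω s := by
  obtain ⟨r, r0', M, h⟩ := h
  obtain ⟨P, hP⟩ := exL n
  refine gm_of (M := M) P (fun y => hP y ▸ hd_le y) (Fin.last n)
    (by ext i; simp [hP, hd, eb, Fin.castSucc_ne_last]) ho hne r0' fun p hp => ?_
  obtain ⟨F, ⟨R, φ, a1, -, a2⟩, a3⟩ := h p hp
  refine ⟨R, φ, fun y hy => ⟨(a1 y hy).1, (a1 y hy).2.2.2⟩, fun z hz => ?_⟩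
  rw [hP, a3 z]
  exact a2 _ (by simpa [dist_eq_norm] using hz)

lemma pt : ∃ x : X, x 0 = 0 ∧ x jl = 0 ∧ q x = 10000 ^ 2 :=
  have e : jl ≠ 1 := by decide
  ⟨(10000 : ℝ) • eb 1, by simp [eb], by simp [eb, e], by
    rw [q, Finset.sum_eq_single 1 (fun j _ h => by simp [eb, h]) (by simp)]; simp [eb, m, e.symm]⟩

lemma rx : ∃ L, Rx ff L := rx_of ff1 (ff_eq (by norm_num)) (by norm_num [ff]) (by norm_num [ff_dd])
  (fun t h0 h1 => by
    rcases le_total t (1 / 2) with h | h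
    · rwa [ff_eq h]
    · rw [ff, max_eq_left (by linarith)]; nlinarith) (by norm_num [ff_dd])

theorem two : ∃ u v, Sol Om ff u ∧ Sol Om ff v ∧ ∃ x ∈ Om, u x ≠ v x := by
  obtain ⟨L, hf⟩ := rx
  obtain ⟨s, hg⟩ := gm_ch Om_o ⟨(0 : X) + (-1 : ℝ) • eb jl, by
      obtain ⟨a, b, c⟩ := up 0 (-1)
      rw [mem_compl_iff, Om, mem_ofPred_eq, a, b, c]; simp [CC]⟩ Om_ch
  obtain ⟨u, w, a1, a2, a3⟩ := ex2 hf ff1 hg Om_c Om_b (θ := 0) (by simp)
  obtain ⟨u', w', b1, b2, b3⟩ := ex2 hf ff1 hg Om_c Om_b (θ := 1) (by simp)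
  obtain ⟨x, x0, x1, x2⟩ := pt
  have c := C0 x
  have xo : x ∈ Om := by rw [Om, mem_ofPred_eq, x0, x1, cos_zero]; linarith
  have e : W x = 7 * rr x - rr x ^ 3 := by simp only [W, x0, x1, cos_zero]; ring
  have r2 : rr x ≤ 1 / 10000 ^ 2 := by rw [rr, x2]; norm_num
  have r3 := pow_pos (r0 x) 3
  have k1 : w x ≤ 4000000 * W x := le_of_tendsto' (a2 x xo) fun n => by
    obtain ⟨χ, C, h, -, χI, K, hK, h0⟩ := a3 n
    exact upper h χI hK h0 x ⟨(show 0 < x jl + cos (x 0) * CC x from xo).le,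
      by rw [mem_ofPred_eq, x1]; positivity⟩
  have k2 : 1 / 2 * (cos (x 0) - W x) ≤ w' x := ge_of_tendsto' (b2 x xo) fun n => by
    obtain ⟨χ, C, h, ⟨y, y1, y2⟩, χI, K, hK, h0⟩ := b3 n
    refine lower h (h.pos Om_o Om_c (fun x hx => ?_) y1 y2) χI hK h0 x (by simp [x0])
    rw [h.eq x hx]
    exact neg_nonpos.2 (add_nonneg (mul_nonneg (χI x).1 (hf.nn _ (h.I x)))
      (mul_nonneg (sub_nonneg.2 (χI x).2) (sub_nonneg.2 (h.I x).2)))
  rw [x0, cos_zero] at k2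
  exact ⟨w, w', a1, b1, x, xo, ne_of_lt (by linarith)⟩

end Pool.Agent.H.MP_3eb465_an
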